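import Mathlib
import Pool.Agent.V11103.Hardy

set_option autoImplicit false

open Filter Topology

namespace Pool.Agent.Results.MP_121ecb_an.NotThickHardy

open Pool.Agent.V11103

/-- Negative answer to the general question, realised by the instance
`f₁(t) = t^{3/2}`, `f₂(t) = α t^{3/2} + t` for every irrational `α`. -/
theorem result : ∀ α : ℝ, Irrational α →
    ∃ (H : Subring ((atTop : Filter ℝ).Germ ℝ)) (f : Fin 2 → ℝ → ℝ),
      IsHardyField H ∧
      f 0 = (fun t => t ^ (3 / 2 : ℝ)) ∧ f 1 = (fun t => α * t ^ (3 / 2 : ℝ) + t) ∧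
      (∀ i, ((f i : ℝ → ℝ) : (atTop : Filter ℝ).Germ ℝ) ∈ H) ∧
      (∀ (c : Fin 2 → ℤ) (m : Fin 2 → ℕ),
        Tendsto (fun t : ℝ => |∑ i, (c i : ℝ) * iteratedDeriv (m i) (f i) t|) atTop (𝓝 0) ∨
        Tendsto (fun t : ℝ => |∑ i, (c i : ℝ) * iteratedDeriv (m i) (f i) t|) atTop atTop) ∧
      ∃ E : Set ℕ, (∀ n ∈ E, 1 ≤ n) ∧ 0 < upperDensity E ∧
        ¬ Thick (⋂ i, returnSet (f i) E) := by
  intro α hα
  obtain ⟨E, hE1, hE2, hE3⟩ := not_thick α hα
  refine ⟨sqrtField, ![fun t => t ^ (3 / 2 : ℝ), fun t => α * t ^ (3 / 2 : ℝ) + t],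
    isHardyField_sqrtField, rfl, rfl, ?_, ?_, E, hE1, hE2, ?_⟩
  · intro i
    fin_cases i
    · exact f1_mem
    · exact f2_mem α
  · intro c m
    have h := combos α hα (c 0) (c 1) (m 0) (m 1)
    simpa [Fin.sum_univ_two] using h
  · have e : (⋂ i : Fin 2, returnSet ((![fun t => t ^ (3 / 2 : ℝ),
        fun t => α * t ^ (3 / 2 : ℝ) + t] : Fin 2 → ℝ → ℝ) i) E)
        = returnSet (fun t => t ^ (3 / 2 : ℝ)) E ∩
          returnSet (fun t => α * t ^ (3 / 2 : ℝ) + t) E := by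
      ext n
      simp [Set.mem_iInter, Fin.forall_fin_two]
    rw [e]
    exact hE3

end Pool.Agent.Results.MP_121ecb_an.NotThickHardy
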